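import Pool.Agent.MP_3ee8cb_gt.DNFL.Spec

/-! The connection form of an orthonormal frame. -/

namespace Pool.Agent.MP_3ee8cb_gt.DNFL

open DN (Dim dm)

variable [Dim]

open DN CR
open scoped RealInnerProductSpace

theorem cn_dS {h : Met dm} {R S : V → V →L[ℝ] V} (f : Fm h R S) (y u a : V) :
    fderiv ℝ S y u (R y a) + S y (fderiv ℝ R y u a) = 0 := by
  have dR := (f.cR.differentiable (by norm_num) y).hasFDerivAt
  have dS := (f.cS.differentiable (by norm_num) y).hasFDerivAt
  have h1 := dS.clm_apply (dR.clm_apply (hasFDerivAt_const a y))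
  simp only [f.SR] at h1
  have h2 := congrArg (fun L : V →L[ℝ] V => L u) (h1.unique (hasFDerivAt_const a y))
  simpa [add_comm] using h2

theorem cn_in {h : Met dm} {R S : V → V →L[ℝ] V} (f : Fm h R S) (y p b : V) :
    ⟪S y p, b⟫ = h y p (R y b) := by
  rw [← f.orth y, f.RS]

theorem cn : SCN := by
  intro h C R S r g f
  refine ⟨fun y => (ContinuousLinearMap.compL ℝ V V V (S y)).comp (fderiv ℝ R y +
    ((ContinuousLinearMap.compL ℝ V V V).flip (R y)).comp (C y)), ?_, fun y u a => by simp,
    fun y u a b => ?_, fun y u v => ?_⟩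
  · have cS : ContDiff ℝ 1 S := f.cS.of_le (by norm_num)
    have cR : ContDiff ℝ 1 R := f.cR.of_le (by norm_num)
    have dR : ContDiff ℝ 1 (fderiv ℝ R) := f.cR.fderiv_right (by norm_num)
    exact ((ContinuousLinearMap.compL ℝ V V V).contDiff.comp cS).clm_comp
      (dR.add (((ContinuousLinearMap.compL ℝ V V V).flip.contDiff.comp cR).clm_comp g.smooth))
  · have dR := (f.cR.differentiable (by norm_num) y).hasFDerivAt
    have dh := (r.smooth.differentiable (by norm_num) y).hasFDerivAt
    have h1 := (dh.clm_apply (dR.clm_apply (hasFDerivAt_const a y))).clm_apply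
      (dR.clm_apply (hasFDerivAt_const b y))
    simp only [f.orth] at h1
    have h2 := congrArg (fun L : V →L[ℝ] ℝ => L u) (h1.unique (hasFDerivAt_const _ y))
    have h3 := g.compat y u (R y a) (R y b)
    have h4 := r.symm y (R y a) (fderiv ℝ R y u b)
    have h6 := r.symm y (R y a) (C y u (R y b))
    change ⟪S y (fderiv ℝ R y u a + C y u (R y a)), b⟫ =
      -⟪a, S y (fderiv ℝ R y u b + C y u (R y b))⟫
    rw [real_inner_comm _ a, cn_in f, cn_in f]
    simp at h2
    simp only [map_add, add_apply]
    linarith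
  · have h1 := cn_dS f y u (S y v)
    have h2 := cn_dS f y v (S y u)
    rw [f.RS] at h1 h2
    have h3 := g.symm y u v
    simp [f.RS]
    rw [eq_neg_of_add_eq_zero_left h1, eq_neg_of_add_eq_zero_left h2, h3]
    abel

end Pool.Agent.MP_3ee8cb_gt.DNFL
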