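import Pool.Agent.MP_3ee8cb_gt.DNFL.Spec
import Pool.Agent.MP_3ee8cb_gt.TB.RSTR
import Pool.Agent.MP_3ee8cb_gt.TB.RLIN
import Pool.Agent.MP_3ee8cb_gt.LV.RODEC

/-! The flow of a complete vector field of class `C¹` is of class `C¹`. -/

namespace Pool.Agent.MP_3ee8cb_gt.DNFL

open DN (Dim dm)

variable [Dim]

open Set Filter Topology

theorem c1_of_strict {A B : Type} [NormedAddCommGroup A] [NormedSpace ℝ A] [NormedAddCommGroup B]
    [NormedSpace ℝ B] {f : A → B} (h : ∀ x, ∃ D : A →L[ℝ] B, HasStrictFDerivAt f D x) :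
    ContDiff ℝ 1 f := by
  have hd : Differentiable ℝ f := fun x => (h x).elim fun _ hD => hD.hasFDerivAt.differentiableAt
  refine contDiff_one_iff_fderiv.2 ⟨hd, continuous_iff_continuousAt.2 fun x => ?_⟩
  obtain ⟨D, hD⟩ := h x
  rw [ContinuousAt, hD.hasFDerivAt.fderiv, Metric.tendsto_nhds]
  intro ε hε
  have h0 : HasStrictFDerivAt (fun y => f y - D y) (D - D) x := hD.sub D.hasStrictFDerivAt
  obtain ⟨s, hs, hl⟩ := h0.exists_lipschitzOnWith_of_nnnorm_lt ⟨ε / 2, by positivity⟩ (by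
    rw [sub_self, nnnorm_zero]
    exact half_pos hε)
  filter_upwards [eventually_mem_nhds_iff.2 hs] with y hy
  have h1 := ((hd y).hasFDerivAt.sub D.hasFDerivAt).le_of_lipschitzOn hy hl
  rw [dist_eq_norm]
  exact h1.trans_lt (half_lt_self hε)

theorem fc : SFC := by
  intro W _ _ _ F Z hF z0 z1
  let G : ℝ × W → ℝ × W := fun p => (0, p.1 • F p.2)
  have hG : ContDiff ℝ 1 G := contDiff_const.prodMk (contDiff_fst.smul (hF.comp contDiff_snd))
  have key : ∀ (z : W) (a b s : ℝ), HasDerivAt (fun s => ((a, Z (a * s + b) z) : ℝ × W))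
      (G (a, Z (a * s + b) z)) s := fun z a b s => by
    have h1 : HasDerivAt (fun s : ℝ => a * s + b) a s := by
      simpa using ((hasDerivAt_id s).const_mul a).add_const b
    have h2 := HasDerivAt.scomp (h := fun s : ℝ => a * s + b) s (z1 z (a * s + b)) h1
    exact (hasDerivAt_const s a).prodMk h2
  let Y : ℝ × W → ℝ → ℝ × W := fun p s => (p.1, Z (p.1 * s + 0) p.2)
  have hY : ∀ p s, HasDerivAt (Y p) (G (Y p s)) s := fun p s => key p.2 p.1 0 s
  have Y0 : ∀ p, Y p 0 = p := fun p => by simp [Y, z0]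
  refine ⟨?_, fun s t z => ?_⟩
  · have h1 : ContDiff ℝ 1 fun p => Y p 1 := by
      refine c1_of_strict fun p₀ => ?_
      obtain ⟨δ, hδ, hb⟩ := LV.odec (ℝ × W) G (Y p₀) 1 1 hG one_pos
        fun t _ => (hY p₀ t).hasDerivWithinAt
      have c0 : Continuous (Y p₀) := continuous_iff_continuousAt.2 fun t => (hY p₀ t).continuousAt
      obtain ⟨B, hB⟩ := (isCompact_Icc (a := (0 : ℝ)) (b := 1)).exists_bound_of_continuousOn
        c0.continuousOn
      obtain ⟨M, M0, hM⟩ := TB.lin (ℝ × W) (fun t => fderiv ℝ G (Y p₀ t))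
        ((hG.continuous_fderiv one_ne_zero).comp c0)
      have e0 : p₀ + δ • (0 : ℝ × W) = p₀ := by simp
      have h2 := TB.str (ℝ × W) (ℝ × W) G (fun q => Y (p₀ + δ • q))
        (δ • ContinuousLinearMap.id ℝ _) 0 (B + 1) M hG (fun q t => hY _ t)
        (fun p q => by
          rw [Y0, Y0, add_sub_add_left_eq_sub, ← smul_sub]
          rfl)
        (fun q hq t ht => by
          have h3 := hb (Y (p₀ + δ • q)) (fun t _ => (hY _ t).hasDerivWithinAt) (by
            rw [Y0, Y0, add_sub_cancel_left, norm_smul, Real.norm_of_nonneg hδ.le]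
            rw [sub_zero] at hq
            exact mul_le_of_le_one_right hδ.le hq) t ht
          have h4 := norm_add_le (Y p₀ t) (Y (p₀ + δ • q) t - Y p₀ t)
          rw [add_sub_cancel] at h4
          linarith [hB t ht]) M0 (by simpa only [e0] using hM)
      have h5 : HasStrictFDerivAt (fun p : ℝ × W => δ⁻¹ • (p - p₀))
          (δ⁻¹ • ContinuousLinearMap.id ℝ _) p₀ :=
        ((hasStrictFDerivAt_id p₀).sub_const p₀).const_smul δ⁻¹
      have e1 : δ⁻¹ • (p₀ - p₀) = (0 : ℝ × W) := by simp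
      rw [← e1] at h2
      have h6 := h2.comp p₀ h5
      refine ⟨_, h6.congr_of_eventuallyEq (Eventually.of_forall fun p => ?_)⟩
      simp only [smul_inv_smul₀ hδ.ne', add_sub_cancel]
    have h2 := contDiff_snd.comp h1
    have e : (fun q : ℝ × W => Z q.1 q.2) = Prod.snd ∘ fun p => Y p 1 := by
      funext q
      simp [Y]
    rw [e]
    exact h2
  · refine eq_of_forall_dist_le fun ε hε => ?_
    obtain ⟨δ, hδ, hb⟩ := LV.odec (ℝ × W) G (Y (s, Z t z)) 1 ε hG hε
      fun t _ => (hY _ t).hasDerivWithinAt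
    have h1 := hb (fun σ => (s, Z (s * σ + t) z)) (fun σ _ => (key z s t σ).hasDerivWithinAt)
      (by simp [Y0, hδ.le]) 1 ⟨zero_le_one, le_rfl⟩
    rw [dist_eq_norm]
    refine le_trans ?_ h1
    have := norm_snd_le ((s, Z (s * 1 + t) z) - Y (s, Z t z) 1)
    simpa [Y] using this

end Pool.Agent.MP_3ee8cb_gt.DNFL
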