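import Pool.Agent.MP_3ee8cb_gt.DN.Top
import Pool.Agent.MP_3ee8cb_gt.DNJC.Out
import Pool.Agent.MP_3ee8cb_gt.DNFL.F3
import Pool.Agent.MP_3ee8cb_gt.DNFL.RCN
import Pool.Agent.MP_3ee8cb_gt.DNFL.RCV
import Pool.Agent.MP_3ee8cb_gt.DNFL.RGL
import Pool.Agent.MP_3ee8cb_gt.DNFL.RFC
import Pool.Agent.MP_3ee8cb_gt.TB.RGAM
import Pool.Agent.MP_3ee8cb_gt.TB.RODE
import Pool.Agent.MP_3ee8cb_gt.DNFL.HHAD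
import Pool.Agent.MP_3ee8cb_gt.DNFL.HFLP
import Pool.Agent.MP_3ee8cb_gt.DNAC.Act
import Pool.Agent.MP_3ee8cb_gt.DNSC.C1
import Pool.Agent.MP_3ee8cb_gt.DNSC.Cf
import Pool.Agent.MP_3ee8cb_gt.DNSC.Sc
import Pool.Agent.MP_3ee8cb_gt.DNLN.Al
import Pool.Agent.MP_3ee8cb_gt.DNWI.Wid
import Pool.Agent.MP_3ee8cb_gt.DNSI.Int
import Pool.Agent.MP_3ee8cb_gt.DNEN.End

/-! The dimension free blocks together. -/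

namespace Pool.Agent.MP_3ee8cb_gt.DN

variable [Dim]

theorem sFRM : SFRM := DNFL.frm_of TB.gam TB.ode DNFL.fm DNFL.cn DNFL.cv DNFL.gl DNFL.fc

theorem blocks : SJAC ∧ SFRM ∧ SHAD ∧ SACT ∧ SFLP ∧ SC1 ∧ SCF ∧ SSY ∧ SWID ∧ SSC ∧ SINT ∧ SEND :=
  ⟨sJAC, sFRM, DNFL.had, sACT, DNFL.flp, sC1_of sFRM, sCF, LN.ssy, DNWI.swid, sSC, sINT, sEND⟩

end Pool.Agent.MP_3ee8cb_gt.DN
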