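import Pool.Agent.MP_3ee8cb_gt.DNFL.HEXB
import Pool.Agent.MP_3ee8cb_gt.DNFL.RLG
import Pool.Agent.MP_3ee8cb_gt.DNFL.RGRAD
import Pool.Agent.MP_3ee8cb_gt.DNFL.RDIST

/-! The logarithm of a negatively curved space. -/

namespace Pool.Agent.MP_3ee8cb_gt.DNFL

open DN (Dim dm)

variable [Dim]

theorem had : DN.SHAD := had_of exb lg_ grad dist_

end Pool.Agent.MP_3ee8cb_gt.DNFL
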