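import Pool.Agent.MP_3ee8cb_gt.DNFL.HSpec
import Pool.Agent.MP_3ee8cb_gt.TB.Fin

/-! The exponential map is bijective and does not shrink vectors. -/

namespace Pool.Agent.MP_3ee8cb_gt.DNFL

open DN (Dim dm)

variable [Dim]

open DN Set Filter Topology
open CR (Met UT Riem)
open scoped RealInnerProductSpace

namespace HEXB

variable {h : Met dm} {C : TB.Chr dm} {Ψ : ℝ → UT h → UT h} {m : MF}

theorem sq (o : m.OK) (k : Lk h C Ψ m) (x u : V) : h x u u = ‖m.S x u‖ ^ 2 := by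
  rw [← real_inner_self_eq_norm_sq, ← k.orth x, o.RS]

theorem pol (b : V) : ∃ (s : ℝ) (u : V), 0 ≤ s ∧ ‖u‖ = 1 ∧ b = s • u := by
  by_cases hb : b = 0
  · exact ⟨0, EuclideanSpace.single 0 1, le_rfl, by simp, by simp [hb]⟩
  · have := norm_ne_zero_iff.2 hb
    refine ⟨‖b‖, ‖b‖⁻¹ • b, norm_nonneg _, ?_, ?_⟩
    · rw [norm_smul, norm_inv, norm_norm, inv_mul_cancel₀ this]
    · rw [smul_smul, mul_inv_cancel₀ this, one_smul]

theorem ident (o : m.OK) (j : m.Jac) (k : Lk h C Ψ m) {C' : TB.Chr dm} {y : V}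
    {X : V → ℝ → V × V} (hX : TB.ExpP h C' Ψ y X) (b : V) :
    (X (m.R y b) 1).1 = (m.Z 1 (y, b)).1 := by
  obtain ⟨s, u, hs, hu, rfl⟩ := pol b
  let p : UT h := ⟨(y, m.R y u), by
    change h y (m.R y u) (m.R y u) = 1
    rw [k.orth, real_inner_self_eq_norm_sq, hu, one_pow]⟩
  have h1 := hX.flow p s rfl hs
  have h2 := k.flow s p
  change m.Z s (y, m.S y (m.R y u)) = _ at h2
  rw [o.SR] at h2
  rw [j.scale, mul_one, h2, map_smul]
  exact h1

end HEXB

open HEXB in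
theorem exb : SEXB := by
  intro h C Λ _ _ Ψ q _ m a o j k ha hc
  obtain ⟨C', c1, c2⟩ := hc
  have r := q.rp
  have g := TB.gam dm h C' r.riem c1
  have key : ∀ y, ∃ e : V → V, (∀ b, e (m.R y b) = (m.Z 1 (y, b)).1) ∧ TB.DerP h y a e := by
    intro y
    obtain ⟨X, hX⟩ := TB.exp_ dm h Λ Ψ C' y r (TB.ode dm h C' Ψ r.riem c1 g r.flow)
    exact ⟨_, ident o j k hX,
      TB.der TB.lin TB.str (TB.jac TB.pic) dm h C' Ψ a y X r.riem g ha c2 hX⟩
  refine ⟨fun y => ?_, fun y b η => ?_⟩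
  · obtain ⟨e, he, d⟩ := key y
    obtain ⟨σ, -, s2, s3⟩ := TB.sec dm _ (TB.ray dm h y _ r.riem fun ξ =>
      (d ξ).imp fun D hD => ⟨hD.1, fun η => (hD.2 η).1⟩)
    refine ⟨fun b b' hb => ?_, fun x => ⟨m.S y (σ x), ?_⟩⟩
    · have h1 : e (m.R y b) = e (m.R y b') := by rw [he, he]; exact hb
      have h2 := congrArg (fun x => m.S y (σ x)) h1
      simpa only [s2, o.SR] using h2
    · change (m.Z 1 (y, m.S y (σ x))).1 = x
      rw [← he, o.RS, s3]
  · obtain ⟨e, he, d⟩ := key y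
    obtain ⟨D, hD, hb⟩ := d (m.R y b)
    have dZ : HasFDerivAt (m.Z 1) (fderiv ℝ (m.Z 1) (y, b)) (y, b) :=
      ((o.cZ.comp (contDiff_const.prodMk contDiff_id)).differentiable one_ne_zero _).hasFDerivAt
    have h1 : HasFDerivAt (fun b => (m.Z 1 (y, b)).1) ((ContinuousLinearMap.fst ℝ V V).comp
        ((fderiv ℝ (m.Z 1) (y, b)).comp (ContinuousLinearMap.inr ℝ V V))) b :=
      (dZ.comp b (hasFDerivAt_prodMk_right y b)).fst
    have h2 : HasFDerivAt (fun b => (m.Z 1 (y, b)).1) (D.comp (m.R y)) b := by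
      have := hD.hasFDerivAt.comp b (m.R y).hasFDerivAt
      exact this.congr_of_eventuallyEq (Eventually.of_forall fun b => (he b).symm)
    have h3 : (fderiv ℝ (m.Z 1) (y, b) (0, η)).1 = D (m.R y η) :=
      DFunLike.congr_fun (h1.unique h2) η
    have h4 := (hb (m.R y η)).1
    rw [sq o k, sq o k, o.SR, he, ← h3] at h4
    exact (pow_le_pow_iff_left₀ (norm_nonneg _) (norm_nonneg _) two_ne_zero).1 h4

end Pool.Agent.MP_3ee8cb_gt.DNFL
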