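import Pool.Agent.MP_3ee8cb_gt.DN.Spec

/-! From a metric to frame data: statements of the rows. -/

namespace Pool.Agent.MP_3ee8cb_gt.DNFL

open DN (Dim dm)

variable [Dim]

open DN CR
open scoped RealInnerProductSpace

/-- An orthonormal frame of class `C²` and its inverse. -/
structure Fm (h : Met dm) (R S : V → V →L[ℝ] V) : Prop where
  cR : ContDiff ℝ 2 R
  cS : ContDiff ℝ 2 S
  SR : ∀ y a, S y (R y a) = a
  RS : ∀ y u, R y (S y u) = u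
  orth : ∀ y a b, h y (R y a) (R y b) = ⟪a, b⟫

/-- The connection form of a frame. -/
structure Cn (C : TB.Chr dm) (R S : V → V →L[ℝ] V) (om : V → V →L[ℝ] V →L[ℝ] V) : Prop where
  com : ContDiff ℝ 1 om
  conn : ∀ y u a, om y u a = S y (fderiv ℝ R y u a + C y u (R y a))
  skew : ∀ y u a b, ⟪om y u a, b⟫ = -⟪a, om y u b⟫
  tors : ∀ y u v, fderiv ℝ S y u v - fderiv ℝ S y v u + om y u (S y v) - om y v (S y u) = 0

def SFM : Prop := ∀ h : Met dm, Riem h → ∃ R S, Fm h R S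

def SCN : Prop := ∀ (h : Met dm) (C : TB.Chr dm) (R S : V → V →L[ℝ] V), Riem h → TB.GamP h C →
  Fm h R S → ∃ om, Cn C R S om

def SCV : Prop := ∀ (h : Met dm) (C : TB.Chr dm) (m : MF), TB.GamP h C → Fm h m.R m.S →
  Cn C m.R m.S m.om →
    ∀ y a b c, m.K y a b c = m.S y (TB.Rm C y (m.R y a) (m.R y b) (m.R y c))

/-- Global solutions of the geodesic equation in the frame. -/
def SGL : Prop := ∀ (h : Met dm) (C : TB.Chr dm) (Ψ : ℝ → UT h → UT h) (m : MF), Riem h →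
  (∀ p, Ψ 0 p = p) → TB.OdeP h C Ψ → Fm h m.R m.S → Cn C m.R m.S m.om →
  ∃ Z : ℝ → V × V → V × V, (∀ z, Z 0 z = z) ∧
    (∀ z t, HasDerivAt (fun s => Z s z) (m.vf (Z t z)) t) ∧ ∀ t (p : UT h),
      Z t (p.1.1, m.S p.1.1 p.1.2) = ((Ψ t p).1.1, m.S (Ψ t p).1.1 (Ψ t p).1.2)

/-- A complete vector field of class `C¹` has a flow of class `C¹`. -/
def SFC : Prop := ∀ (W : Type) [NormedAddCommGroup W] [NormedSpace ℝ W] [FiniteDimensional ℝ W]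
  (F : W → W) (Z : ℝ → W → W), ContDiff ℝ 1 F → (∀ z, Z 0 z = z) →
  (∀ z t, HasDerivAt (fun s => Z s z) (F (Z t z)) t) →
  (ContDiff ℝ 1 fun q : ℝ × W => Z q.1 q.2) ∧ ∀ s t z, Z (s + t) z = Z s (Z t z)

theorem vf_smooth (m : MF) (h1 : ContDiff ℝ 2 m.R) (h2 : ContDiff ℝ 1 m.om) :
    ContDiff ℝ 1 m.vf := by
  have a : ContDiff ℝ 1 fun z : V × V => m.R z.1 z.2 :=
    ((h1.of_le (by norm_num)).comp contDiff_fst).clm_apply contDiff_snd
  exact a.prodMk (((h2.comp contDiff_fst).clm_apply a).clm_apply contDiff_snd).neg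

theorem frm_of (gam : TB.SGAM) (ode : TB.SODE) (fm : SFM) (cn : SCN) (cv : SCV) (gl : SGL)
    (fc : SFC) : SFRM := by
  intro h C Λ _ _ Ψ q c
  have r := q.rp.riem
  have g := gam dm h C r c
  obtain ⟨R, S, f⟩ := fm h r
  obtain ⟨om, k⟩ := cn h C R S r g f
  obtain ⟨Z, z0, z1, z2⟩ := gl h C Ψ ⟨R, S, om, fun _ z => z⟩ r q.rp.flow.zero
    (ode dm h C Ψ r c g q.rp.flow) f k
  obtain ⟨c1, c2⟩ := fc (V × V) (MF.vf ⟨R, S, om, Z⟩) Z (vf_smooth _ f.cR k.com) z0 z1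
  exact ⟨⟨R, S, om, Z⟩, ⟨f.cR, f.cS, k.com, f.SR, f.RS, k.skew, k.tors, c1, z0, c2, z1⟩,
    ⟨f.orth, k.conn, cv h C ⟨R, S, om, Z⟩ g f k, z2⟩⟩

end Pool.Agent.MP_3ee8cb_gt.DNFL
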